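import Mathlib
import Pool.Agent.W488.IW.Stm

/-! Project IW: the sharp pointwise inequality `S_PTW`. -/

set_option autoImplicit false

open Set

namespace Pool.Agent.W459.IW.Ptw

/-- the Burkholder constant -/
noncomputable def cp (p : ℝ) : ℝ := p * (1 - 1 / p) ^ (p - 1)

theorem one_le_cp {p : ℝ} (hp : 2 ≤ p) : 1 ≤ cp p := by
  have h1 : (-1 : ℝ) ≤ -(1 / p) := by
    rw [neg_le_neg_iff, div_le_one (by linarith)]
    linarith
  have h2 := one_add_mul_self_le_rpow_one_add h1 (p := p - 1) (by linarith)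
  have h3 : 1 + (p - 1) * -(1 / p) = 1 / p := by
    field_simp
    ring
  rw [h3, ← sub_eq_add_neg] at h2
  unfold cp
  have h4 := mul_le_mul_of_nonneg_left h2 (show (0 : ℝ) ≤ p by linarith)
  rwa [mul_one_div_cancel (by linarith)] at h4

theorem cp_le {p : ℝ} (hp : 2 ≤ p) (hp3 : p ≤ 3) : cp p ≤ 2 * (p - 1) / p := by
  have h0 : 0 < p := by linarith
  have h1 : (-1 : ℝ) ≤ -(1 / p) := by
    rw [neg_le_neg_iff, div_le_one (by linarith)]
    linarith
  have h2 := rpow_one_add_le_one_add_mul_self h1 (p := p - 2) (by linarith) (by linarith)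
  rw [← sub_eq_add_neg] at h2
  have hpos : 0 < 1 - 1 / p := by
    rw [sub_pos, div_lt_one h0]
    linarith
  have h3 : (1 - 1 / p) ^ (p - 1) = (1 - 1 / p) ^ (p - 2) * (1 - 1 / p) := by
    rw [← Real.rpow_add_one hpos.ne']
    congr 1
    ring
  unfold cp
  rw [h3]
  calc p * ((1 - 1 / p) ^ (p - 2) * (1 - 1 / p)) ≤ p * ((1 + (p - 2) * -(1 / p)) * (1 - 1 / p)) := by
        apply mul_le_mul_of_nonneg_left _ h0.le
        exact mul_le_mul_of_nonneg_right h2 hpos.le
    _ = 2 * (p - 1) / p := by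
        field_simp
        ring

theorem cp_mul {p : ℝ} (hp : 2 ≤ p) : cp p * p ^ (p - 2) = (p - 1) ^ (p - 1) := by
  have h0 : 0 < p := by linarith
  have h1 : 1 - 1 / p = (p - 1) / p := by field_simp
  unfold cp
  rw [h1, Real.div_rpow (by linarith) h0.le]
  have h2 : p ^ (p - 1) = p * p ^ (p - 2) := by
    rw [show p - 1 = (p - 2) + 1 by ring, Real.rpow_add_one h0.ne', mul_comm]
  rw [h2]
  have h3 : p ^ (p - 2) ≠ 0 := (Real.rpow_pos_of_pos h0 _).ne'
  field_simp

theorem cp_pos {p : ℝ} (hp : 2 ≤ p) : 0 < cp p := lt_of_lt_of_le one_pos (one_le_cp hp)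

/-- logarithm of the quotient -/
noncomputable def ps (p t : ℝ) : ℝ :=
  (p - 1) * Real.log t - (p - 2) * Real.log (1 + t) - Real.log (t - (p - 2))

theorem ps_anti {p : ℝ} (hp : 2 ≤ p) : AntitoneOn (ps p) (Ioi (p - 2)) := by
  have hd : ∀ t ∈ Ioi (p - 2), HasDerivAt (ps p)
      ((p - 1) * t⁻¹ - (p - 2) * (1 + t)⁻¹ - (t - (p - 2))⁻¹) t := by
    intro t ht
    have ht' : p - 2 < t := ht
    have h0 : 0 < t := by linarith
    have h1 : HasDerivAt (fun t : ℝ => Real.log (1 + t)) ((1 + t)⁻¹) t := by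
      have := ((hasDerivAt_id t).const_add 1).log (by simp; linarith)
      simpa using this
    have h2 : HasDerivAt (fun t : ℝ => Real.log (t - (p - 2))) ((t - (p - 2))⁻¹) t := by
      have := ((hasDerivAt_id t).sub_const (p - 2)).log (by simp; linarith)
      simpa using this
    exact (((Real.hasDerivAt_log h0.ne').const_mul (p - 1)).sub (h1.const_mul (p - 2))).sub h2
  apply antitoneOn_of_deriv_nonpos (convex_Ioi _)
  · exact fun t ht => (hd t ht).continuousAt.continuousWithinAt
  · rw [interior_Ioi]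
    exact fun t ht => (hd t ht).differentiableAt.differentiableWithinAt
  · rw [interior_Ioi]
    intro t ht
    rw [(hd t ht).deriv]
    have ht' : p - 2 < t := ht
    have h0 : 0 < t := by linarith
    have h1 : 0 < 1 + t := by linarith
    have h2 : 0 < t - (p - 2) := by linarith
    have h3 : (p - 1) * t⁻¹ - (p - 2) * (1 + t)⁻¹ - (t - (p - 2))⁻¹ =
        -((p - 1) * (p - 2) / (t * (1 + t) * (t - (p - 2)))) := by
      field_simp
      ring
    rw [h3, neg_nonpos]
    apply div_nonneg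
    · nlinarith
    · positivity

theorem ps_one {p : ℝ} (hp : 2 ≤ p) : ps p (p - 1) = Real.log (cp p) := by
  have h0 : 0 < p := by linarith
  have h1 := congrArg Real.log (cp_mul hp)
  rw [Real.log_mul (cp_pos hp).ne' (Real.rpow_pos_of_pos h0 _).ne', Real.log_rpow h0,
    Real.log_rpow (by linarith)] at h1
  unfold ps
  rw [show 1 + (p - 1) = p by ring, show p - 1 - (p - 2) = 1 by ring, Real.log_one]
  linarith

theorem exp_ps {p t : ℝ} (hp : 2 ≤ p) (ht : p - 2 < t) :
    Real.exp (ps p t) * ((t - (p - 2)) * (1 + t) ^ (p - 2)) = t ^ (p - 1) := by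
  have h0 : 0 < t := by linarith
  have h1 : 0 < 1 + t := by linarith
  have h2 : 0 < t - (p - 2) := by linarith
  rw [Real.rpow_def_of_pos h0, Real.rpow_def_of_pos h1]
  have h3 : t - (p - 2) = Real.exp (Real.log (t - (p - 2))) := (Real.exp_log h2).symm
  have h4 : Real.exp (ps p t) * (Real.exp (Real.log (t - (p - 2))) *
      Real.exp (Real.log (1 + t) * (p - 2))) = Real.exp (Real.log t * (p - 1)) := by
    rw [← Real.exp_add, ← Real.exp_add]
    congr 1
    unfold ps
    ring
  rwa [← h3] at h4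

theorem key_le {p t : ℝ} (hp : 2 ≤ p) (ht0 : 0 ≤ t) (ht : t ≤ p - 1) :
    cp p * ((t - (p - 2)) * (1 + t) ^ (p - 2)) ≤ t ^ (p - 1) := by
  have h1 : 0 ≤ (1 + t) ^ (p - 2) := Real.rpow_nonneg (by linarith) _
  rcases le_or_gt t (p - 2) with h | h
  · have h2 : cp p * ((t - (p - 2)) * (1 + t) ^ (p - 2)) ≤ 0 := by
      apply mul_nonpos_of_nonneg_of_nonpos (cp_pos hp).le
      exact mul_nonpos_of_nonpos_of_nonneg (by linarith) h1
    exact h2.trans (Real.rpow_nonneg ht0 _)
  · rw [← exp_ps hp h]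
    apply mul_le_mul_of_nonneg_right
    · rw [← Real.exp_log (cp_pos hp), ← ps_one hp]
      apply Real.exp_le_exp.2
      exact ps_anti hp h (show p - 2 < p - 1 by linarith) ht
    · exact mul_nonneg (by linarith) h1

theorem key_ge {p t : ℝ} (hp : 2 ≤ p) (ht : p - 1 ≤ t) :
    t ^ (p - 1) ≤ cp p * ((t - (p - 2)) * (1 + t) ^ (p - 2)) := by
  have h1 : 0 ≤ (1 + t) ^ (p - 2) := Real.rpow_nonneg (by linarith) _
  have h : p - 2 < t := by linarith
  rw [← exp_ps hp h]
  apply mul_le_mul_of_nonneg_right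
  · rw [← Real.exp_log (cp_pos hp), ← ps_one hp]
    apply Real.exp_le_exp.2
    exact ps_anti hp (show p - 2 < p - 1 by linarith) h ht
  · exact mul_nonneg (by linarith) h1

/-- the Burkholder function -/
noncomputable def BB (p t : ℝ) : ℝ :=
  (p - 1) ^ p - t ^ p - cp p * ((p - 1 - t) * (1 + t) ^ (p - 1))

theorem BB_deriv {p t : ℝ} (hp : 2 ≤ p) (ht : -1 < t) : HasDerivAt (BB p)
    (-(p * (t ^ (p - 1) - cp p * ((t - (p - 2)) * (1 + t) ^ (p - 2))))) t := by
  have h1 : HasDerivAt (fun t : ℝ => t ^ p) (p * t ^ (p - 1)) t :=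
    Real.hasDerivAt_rpow_const (Or.inr (by linarith))
  have h2 : HasDerivAt (fun t : ℝ => (1 + t) ^ (p - 1)) ((p - 1) * (1 + t) ^ (p - 1 - 1)) t := by
    have := ((hasDerivAt_id t).const_add 1).rpow_const (p := p - 1) (Or.inr (by linarith))
    simpa using this
  have h3 : HasDerivAt (fun t : ℝ => p - 1 - t) (-1) t := by
    simpa using (hasDerivAt_id t).const_sub (p - 1)
  have h4 := ((h1.const_sub ((p - 1) ^ p)).sub ((h3.mul h2).const_mul (cp p)))
  refine h4.congr_deriv ?_
  have h5 : (1 + t) ^ (p - 1) = (1 + t) ^ (p - 2) * (1 + t) := by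
    rw [show p - 1 = (p - 2) + 1 by ring, Real.rpow_add_one (by linarith)]
  rw [show p - 1 - 1 = p - 2 by ring, h5]
  ring

theorem BB_nonneg {p t : ℝ} (hp : 2 ≤ p) (ht : 0 ≤ t) : 0 ≤ BB p t := by
  have hB : BB p (p - 1) = 0 := by
    unfold BB
    ring
  rcases le_total t (p - 1) with h | h
  · have h1 : AntitoneOn (BB p) (Icc 0 (p - 1)) := by
      apply antitoneOn_of_deriv_nonpos (convex_Icc _ _)
      · exact fun t ht => (BB_deriv hp (by linarith [ht.1])).continuousAt.continuousWithinAt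
      · rw [interior_Icc]
        exact fun t ht => (BB_deriv hp (by linarith [ht.1])).differentiableAt.differentiableWithinAt
      · rw [interior_Icc]
        intro t ht
        rw [(BB_deriv hp (by linarith [ht.1])).deriv]
        have h2 := key_le hp ht.1.le ht.2.le
        have h3 : 0 ≤ p * (t ^ (p - 1) - cp p * ((t - (p - 2)) * (1 + t) ^ (p - 2))) :=
          mul_nonneg (by linarith) (by linarith)
        linarith
    have h2 := h1 ⟨ht, h⟩ (right_mem_Icc.2 (by linarith)) h
    rwa [hB] at h2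
  · have h1 : MonotoneOn (BB p) (Ici (p - 1)) := by
      apply monotoneOn_of_deriv_nonneg (convex_Ici _)
      · exact fun t ht => (BB_deriv hp (by
          have : p - 1 ≤ t := ht
          linarith)).continuousAt.continuousWithinAt
      · rw [interior_Ici]
        exact fun t ht => (BB_deriv hp (by
          have : p - 1 < t := ht
          linarith)).differentiableAt.differentiableWithinAt
      · rw [interior_Ici]
        intro t ht
        have ht' : p - 1 < t := ht
        rw [(BB_deriv hp (by linarith)).deriv]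
        have h2 := key_ge hp ht'.le
        have h3 : p * (t ^ (p - 1) - cp p * ((t - (p - 2)) * (1 + t) ^ (p - 2))) ≤ 0 :=
          mul_nonpos_of_nonneg_of_nonpos (by linarith) (by linarith)
        linarith
    have h2 := h1 (self_mem_Ici) h h
    rwa [hB] at h2

/-- the function on `[0,1]` -/
noncomputable def ff (p t : ℝ) : ℝ := BB p t - cp p * ((p - 2) * (1 - t) ^ p)

/-- minus its derivative divided by `p` -/
noncomputable def gg (p t : ℝ) : ℝ :=
  t ^ (p - 1) + cp p * ((p - 2 - t) * (1 + t) ^ (p - 2) - (p - 2) * (1 - t) ^ (p - 1))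

/-- the derivative of `gg` divided by `p - 1` -/
noncomputable def hf (p t : ℝ) : ℝ :=
  t ^ (p - 2) + cp p * ((p - 3 - t) * (1 + t) ^ (p - 3) + (p - 2) * (1 - t) ^ (p - 2))

theorem ff_deriv {p t : ℝ} (hp : 2 ≤ p) (ht : -1 < t) :
    HasDerivAt (ff p) (-(p * gg p t)) t := by
  have h1 : HasDerivAt (fun t : ℝ => (1 - t) ^ p) (-(p * (1 - t) ^ (p - 1))) t := by
    have := ((hasDerivAt_id t).const_sub 1).rpow_const (p := p) (Or.inr (by linarith))
    refine this.congr_deriv ?_
    simp
  refine ((BB_deriv hp ht).sub ((h1.const_mul (p - 2)).const_mul (cp p))).congr_deriv ?_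
  unfold gg
  ring

theorem ff_one {p : ℝ} (hp : 2 ≤ p) : ff p 1 = BB p 1 := by
  unfold ff
  rw [sub_self, Real.zero_rpow (by linarith)]
  ring

theorem gg_one {p : ℝ} (hp : 2 ≤ p) : 0 ≤ gg p 1 := by
  have h := key_le hp zero_le_one (show (1 : ℝ) ≤ p - 1 by linarith)
  unfold gg
  rw [sub_self, Real.zero_rpow (by linarith)]
  linarith

theorem gg_zero {p : ℝ} (hp : 2 < p) : gg p 0 = 0 := by
  unfold gg
  rw [Real.zero_rpow (by linarith), sub_zero, sub_zero, add_zero, Real.one_rpow, Real.one_rpow]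
  ring

/-- large exponents -/
theorem gg_nonneg {p t : ℝ} (hp : 3 ≤ p) (ht0 : 0 ≤ t) (ht1 : t ≤ 1) : 0 ≤ gg p t := by
  have h1 : (1 - t) ^ (p - 1) ≤ 1 - t := by
    have := Real.rpow_le_rpow_of_exponent_ge' (show 0 ≤ 1 - t by linarith) (by linarith)
      zero_le_one (show (1 : ℝ) ≤ p - 1 by linarith)
    rwa [Real.rpow_one] at this
  have h2 : 1 ≤ (1 + t) ^ (p - 2) := Real.one_le_rpow (by linarith) (by linarith)
  have h3 : (p - 2) * (1 - t) ^ (p - 1) ≤ (p - 2) * (1 - t) :=
    mul_le_mul_of_nonneg_left h1 (by linarith)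
  have h4 : (p - 2) * (1 - t) ≤ p - 2 - t := by nlinarith
  have h5 : (p - 2 - t) * 1 ≤ (p - 2 - t) * (1 + t) ^ (p - 2) :=
    mul_le_mul_of_nonneg_left h2 (by linarith)
  have h6 : 0 ≤ t ^ (p - 1) := Real.rpow_nonneg ht0 _
  unfold gg
  have h7 : 0 ≤ cp p * ((p - 2 - t) * (1 + t) ^ (p - 2) - (p - 2) * (1 - t) ^ (p - 1)) :=
    mul_nonneg (cp_pos (by linarith)).le (by linarith)
  linarith

theorem ff_nonneg3 {p t : ℝ} (hp : 3 ≤ p) (ht0 : 0 ≤ t) (ht1 : t ≤ 1) : 0 ≤ ff p t := by
  have h1 : AntitoneOn (ff p) (Icc 0 1) := by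
    apply antitoneOn_of_deriv_nonpos (convex_Icc _ _)
    · exact fun t ht => (ff_deriv (by linarith) (by linarith [ht.1])).continuousAt.continuousWithinAt
    · rw [interior_Icc]
      exact fun t ht => (ff_deriv (by linarith)
        (by linarith [ht.1])).differentiableAt.differentiableWithinAt
    · rw [interior_Icc]
      intro t ht
      rw [(ff_deriv (by linarith) (by linarith [ht.1])).deriv]
      have h3 : 0 ≤ p * gg p t := mul_nonneg (by linarith) (gg_nonneg hp ht.1.le ht.2.le)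
      linarith
  have h2 := h1 ⟨ht0, ht1⟩ (right_mem_Icc.2 zero_le_one) ht1
  rw [ff_one (by linarith)] at h2
  exact (BB_nonneg (by linarith) zero_le_one).trans h2

theorem gg_deriv {p t : ℝ} (hp : 2 < p) (ht : 0 < t) (ht1 : t < 1) :
    HasDerivAt (gg p) ((p - 1) * hf p t) t := by
  have h1 : HasDerivAt (fun t : ℝ => t ^ (p - 1)) ((p - 1) * t ^ (p - 1 - 1)) t :=
    Real.hasDerivAt_rpow_const (Or.inl ht.ne')
  have h2 : HasDerivAt (fun t : ℝ => (1 + t) ^ (p - 2)) ((p - 2) * (1 + t) ^ (p - 2 - 1)) t := by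
    have := ((hasDerivAt_id t).const_add 1).rpow_const (p := p - 2)
      (Or.inl (show 1 + id t ≠ 0 by simp; linarith))
    simpa using this
  have h3 : HasDerivAt (fun t : ℝ => p - 2 - t) (-1) t := by
    simpa using (hasDerivAt_id t).const_sub (p - 2)
  have h4 : HasDerivAt (fun t : ℝ => (1 - t) ^ (p - 1)) (-((p - 1) * (1 - t) ^ (p - 1 - 1))) t := by
    have := ((hasDerivAt_id t).const_sub 1).rpow_const (p := p - 1)
      (Or.inl (show 1 - id t ≠ 0 by simp; linarith))
    refine this.congr_deriv ?_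
    simp only [id]
    ring
  refine (h1.add (((h3.mul h2).sub (h4.const_mul (p - 2))).const_mul (cp p))).congr_deriv ?_
  have h5 : (1 + t) ^ (p - 2) = (1 + t) ^ (p - 3) * (1 + t) := by
    rw [show p - 2 = (p - 3) + 1 by ring, Real.rpow_add_one (by linarith)]
  unfold hf
  rw [show p - 1 - 1 = p - 2 by ring, show p - 2 - 1 = p - 3 by ring, h5]
  ring

theorem gg_cont {p : ℝ} (hp : 2 < p) : ContinuousOn (gg p) (Icc 0 1) := by
  unfold gg
  apply ContinuousOn.add
  · exact ContinuousOn.rpow_const continuousOn_id fun t _ => Or.inr (by linarith)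
  · apply ContinuousOn.mul continuousOn_const
    apply ContinuousOn.sub
    · apply ContinuousOn.mul (by fun_prop)
      exact ContinuousOn.rpow_const (by fun_prop) fun t _ => Or.inr (by linarith)
    · apply ContinuousOn.mul continuousOn_const
      exact ContinuousOn.rpow_const (by fun_prop) fun t _ => Or.inr (by linarith)

/-- the elementary inequality behind concavity -/
theorem elem {s t : ℝ} (hs : 0 < s) (hs1 : s < 1) (ht : 0 < t) (ht1 : t < 1) :
    cp (s + 2) * ((t + 3 - s) * (1 + t) ^ (s - 3)) ≤ t ^ (s - 2) := by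
  have h1 : 0 < 1 + t := by linarith
  set u : ℝ := t / (1 + t) with hu
  have hu0 : 0 < u := div_pos ht h1
  have hu1 : u ≤ 1 / 2 := by
    rw [hu, div_le_iff₀ h1]
    linarith
  have h2 : u ^ (1 - s) ≤ (1 + s) / 2 := by
    have e1 : u ^ (1 - s) ≤ (1 / 2 : ℝ) ^ (1 - s) := Real.rpow_le_rpow hu0.le hu1 (by linarith)
    have e2 := rpow_one_add_le_one_add_mul_self (show (-1 : ℝ) ≤ -(1 / 2) by norm_num)
      (p := 1 - s) (by linarith) (by linarith)
    rw [show (1 : ℝ) + -(1 / 2) = 1 / 2 by norm_num] at e2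
    linarith
  have h3 : u ^ (2 - s) ≤ u * ((1 + s) / 2) := by
    rw [show 2 - s = (1 - s) + 1 by ring, Real.rpow_add_one hu0.ne', mul_comm]
    exact mul_le_mul_of_nonneg_left h2 hu0.le
  have h4 : cp (s + 2) ≤ 2 * (1 + s) / (2 + s) := by
    have := cp_le (p := s + 2) (by linarith) (by linarith)
    rwa [show s + 2 - 1 = 1 + s by ring, show 2 * (1 + s) / (s + 2) = 2 * (1 + s) / (2 + s) by
      rw [add_comm s 2]] at this
  -- the product is at most one
  have h5 : cp (s + 2) * ((t + 3 - s) / (1 + t)) * u ^ (2 - s) ≤ 1 := by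
    have h6 : 0 ≤ (t + 3 - s) / (1 + t) := div_nonneg (by linarith) h1.le
    have h7 : cp (s + 2) * ((t + 3 - s) / (1 + t)) * u ^ (2 - s) ≤
        2 * (1 + s) / (2 + s) * ((t + 3 - s) / (1 + t)) * (u * ((1 + s) / 2)) := by
      apply mul_le_mul
      · exact mul_le_mul_of_nonneg_right h4 h6
      · exact h3
      · exact Real.rpow_nonneg hu0.le _
      · positivity
    refine h7.trans ?_
    have h8 : 2 * (1 + s) / (2 + s) * ((t + 3 - s) / (1 + t)) * (u * ((1 + s) / 2)) =
        ((1 + s) ^ 2 * (t * (t + 3 - s))) / ((2 + s) * (1 + t) ^ 2) := by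
      rw [hu]
      field_simp
    rw [h8, div_le_one (by positivity)]
    have h9 : 4 * (t * (t + 3 - s)) ≤ (4 - s) * (1 + t) ^ 2 := by
      nlinarith [mul_nonneg (show (0:ℝ) ≤ 1 - t by linarith) (show (0:ℝ) ≤ 4 - s + s * t by nlinarith)]
    have h10 : (1 + s) ^ 2 * (4 - s) ≤ 4 * (2 + s) := by
      nlinarith [mul_nonneg (show (0:ℝ) ≤ 1 - s by linarith) (show (0:ℝ) ≤ 4 + s - s ^ 2 by nlinarith)]
    have h11 : 4 * ((1 + s) ^ 2 * (t * (t + 3 - s))) ≤ (1 + s) ^ 2 * ((4 - s) * (1 + t) ^ 2) := by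
      nlinarith [mul_le_mul_of_nonneg_left h9 (sq_nonneg (1 + s))]
    nlinarith [mul_le_mul_of_nonneg_right h10 (sq_nonneg (1 + t))]
  have h6 : u ^ (2 - s) = t ^ (2 - s) / (1 + t) ^ (2 - s) := Real.div_rpow ht.le h1.le _
  have h7 : (1 + t) ^ (s - 3) = ((1 + t) * (1 + t) ^ (2 - s))⁻¹ := by
    rw [show s - 3 = -((2 - s) + 1) by ring, Real.rpow_neg h1.le, Real.rpow_add_one h1.ne', mul_comm]
  have h8 : t ^ (s - 2) = (t ^ (2 - s))⁻¹ := by
    rw [show s - 2 = -(2 - s) by ring, Real.rpow_neg ht.le]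
  have h9 : 0 < t ^ (2 - s) := Real.rpow_pos_of_pos ht _
  have h10 : 0 < (1 + t) ^ (2 - s) := Real.rpow_pos_of_pos h1 _
  have h11 : cp (s + 2) * ((t + 3 - s) * (1 + t) ^ (s - 3)) =
      (cp (s + 2) * ((t + 3 - s) / (1 + t)) * u ^ (2 - s)) * (t ^ (2 - s))⁻¹ := by
    rw [h6, h7]
    field_simp
  rw [h11, h8]
  have h12 : 0 ≤ (t ^ (2 - s))⁻¹ := (inv_pos.2 h9).le
  have h13 := mul_le_mul_of_nonneg_right h5 h12
  rwa [one_mul] at h13

theorem hf_concave {s : ℝ} (hs : 0 < s) (hs1 : s < 1) : ConcaveOn ℝ (Ioo (0 : ℝ) 1) (hf (s + 2)) := by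
  set c : ℝ := cp (s + 2) with hc
  have hc0 : 0 < c := cp_pos (by linarith)
  have hfe : hf (s + 2) = fun t => t ^ s + c * ((s - 1 - t) * (1 + t) ^ (s - 1) + s * (1 - t) ^ s) := by
    funext t
    unfold hf
    rw [show s + 2 - 2 = s by ring, show s + 2 - 3 = s - 1 by ring]
  rw [hfe]
  refine concaveOn_of_hasDerivWithinAt2_nonpos (convex_Ioo 0 1)
    (f' := fun t => s * (t ^ (s - 1) + c * ((s - 2 - t) * (1 + t) ^ (s - 2) - s * (1 - t) ^ (s - 1))))
    (f'' := fun t => s * (1 - s) * (-t ^ (s - 2) +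
      c * ((t + 3 - s) * (1 + t) ^ (s - 3) - s * (1 - t) ^ (s - 2)))) ?_ ?_ ?_ ?_
  · intro t ht
    apply ContinuousAt.continuousWithinAt
    have h1 : ContinuousAt (fun t : ℝ => t ^ s) t := Real.continuousAt_rpow_const _ _ (Or.inr hs.le)
    have h2 : ContinuousAt (fun t : ℝ => (1 + t) ^ (s - 1)) t :=
      ContinuousAt.rpow_const (by fun_prop) (Or.inl (by linarith [ht.1]))
    have h3 : ContinuousAt (fun t : ℝ => (1 - t) ^ s) t :=
      ContinuousAt.rpow_const (by fun_prop) (Or.inr hs.le)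
    fun_prop
  · rw [interior_Ioo]
    intro t ht
    apply HasDerivAt.hasDerivWithinAt
    have h1 : HasDerivAt (fun t : ℝ => t ^ s) (s * t ^ (s - 1)) t :=
      Real.hasDerivAt_rpow_const (Or.inl ht.1.ne')
    have h2 : HasDerivAt (fun t : ℝ => (1 + t) ^ (s - 1)) ((s - 1) * (1 + t) ^ (s - 1 - 1)) t := by
      have := ((hasDerivAt_id t).const_add 1).rpow_const (p := s - 1)
        (Or.inl (show 1 + id t ≠ 0 by simp; linarith [ht.1]))
      simpa using this
    have h3 : HasDerivAt (fun t : ℝ => s - 1 - t) (-1) t := by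
      simpa using (hasDerivAt_id t).const_sub (s - 1)
    have h4 : HasDerivAt (fun t : ℝ => (1 - t) ^ s) (-(s * (1 - t) ^ (s - 1))) t := by
      have := ((hasDerivAt_id t).const_sub 1).rpow_const (p := s)
        (Or.inl (show 1 - id t ≠ 0 by simp; linarith [ht.2]))
      refine this.congr_deriv ?_
      simp only [id]
      ring
    refine (h1.add (((h3.mul h2).add (h4.const_mul s)).const_mul c)).congr_deriv ?_
    have h5 : (1 + t) ^ (s - 1) = (1 + t) ^ (s - 2) * (1 + t) := by
      rw [show s - 1 = (s - 2) + 1 by ring, Real.rpow_add_one (by linarith [ht.1])]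
    rw [show s - 1 - 1 = s - 2 by ring, h5]
    ring
  · rw [interior_Ioo]
    intro t ht
    apply HasDerivAt.hasDerivWithinAt
    have h1 : HasDerivAt (fun t : ℝ => t ^ (s - 1)) ((s - 1) * t ^ (s - 1 - 1)) t :=
      Real.hasDerivAt_rpow_const (Or.inl ht.1.ne')
    have h2 : HasDerivAt (fun t : ℝ => (1 + t) ^ (s - 2)) ((s - 2) * (1 + t) ^ (s - 2 - 1)) t := by
      have := ((hasDerivAt_id t).const_add 1).rpow_const (p := s - 2)
        (Or.inl (show 1 + id t ≠ 0 by simp; linarith [ht.1]))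
      simpa using this
    have h3 : HasDerivAt (fun t : ℝ => s - 2 - t) (-1) t := by
      simpa using (hasDerivAt_id t).const_sub (s - 2)
    have h4 : HasDerivAt (fun t : ℝ => (1 - t) ^ (s - 1)) (-((s - 1) * (1 - t) ^ (s - 1 - 1))) t := by
      have := ((hasDerivAt_id t).const_sub 1).rpow_const (p := s - 1)
        (Or.inl (show 1 - id t ≠ 0 by simp; linarith [ht.2]))
      refine this.congr_deriv ?_
      simp only [id]
      ring
    refine ((h1.add (((h3.mul h2).sub (h4.const_mul s)).const_mul c)).const_mul s).congr_deriv ?_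
    have h5 : (1 + t) ^ (s - 2) = (1 + t) ^ (s - 3) * (1 + t) := by
      rw [show s - 2 = (s - 3) + 1 by ring, Real.rpow_add_one (by linarith [ht.1])]
    rw [show s - 1 - 1 = s - 2 by ring, show s - 2 - 1 = s - 3 by ring, h5]
    ring
  · rw [interior_Ioo]
    intro t ht
    have h1 := elem hs hs1 ht.1 ht.2
    have h2 : 0 ≤ (1 - t) ^ (s - 2) := Real.rpow_nonneg (by linarith [ht.2]) _
    have h3 : 0 ≤ c * (s * (1 - t) ^ (s - 2)) := by positivity
    apply mul_nonpos_of_nonneg_of_nonpos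
    · nlinarith
    · rw [mul_sub]
      linarith

theorem start {p : ℝ} (hp : 219 / 100 ≤ p) (hp3 : p ≤ 3) : 0 ≤ ff p 0 := by
  have h0 : 0 < p := by linarith
  -- the value at the left end point
  have hb : (138 / 119 : ℝ) ≤ (219 / 100 : ℝ) ^ (19 / 100 : ℝ) := by
    have h1 : (138 / 119 : ℝ) ^ (100 : ℕ) ≤ (219 / 100 : ℝ) ^ (19 : ℕ) := by norm_num
    have h2 : ((219 / 100 : ℝ) ^ (19 / 100 : ℝ)) ^ (100 : ℕ) = (219 / 100 : ℝ) ^ (19 : ℕ) := by
      rw [← Real.rpow_natCast, ← Real.rpow_mul (by norm_num), ← Real.rpow_natCast]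
      norm_num
    rw [← h2] at h1
    exact (pow_le_pow_iff_left₀ (by norm_num) (Real.rpow_nonneg (by norm_num) _) (by norm_num)).1 h1
  have h1 : 138 / 119 * (1 + (p - 219 / 100) * (69 / 100)) ≤ p ^ (p - 2) := by
    have e1 : (219 / 100 : ℝ) ^ (p - 2) ≤ p ^ (p - 2) :=
      Real.rpow_le_rpow (by norm_num) hp (by linarith)
    have e2 : (219 / 100 : ℝ) ^ (p - 2) =
        (219 / 100 : ℝ) ^ (19 / 100 : ℝ) * (219 / 100 : ℝ) ^ (p - 219 / 100) := by
      rw [← Real.rpow_add (by norm_num)]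
      congr 1
      ring
    have e3 : 1 + (p - 219 / 100) * (69 / 100) ≤ (219 / 100 : ℝ) ^ (p - 219 / 100) := by
      rw [Real.rpow_def_of_pos (by norm_num)]
      have f1 := Real.add_one_le_exp (Real.log (219 / 100) * (p - 219 / 100))
      have f2 : (69 / 100 : ℝ) ≤ Real.log (219 / 100) := by
        have f3 : Real.log 2 ≤ Real.log (219 / 100) := Real.log_le_log (by norm_num) (by norm_num)
        have f4 := Real.log_two_gt_d9
        linarith
      nlinarith
    have e4 : 0 ≤ 1 + (p - 219 / 100) * (69 / 100) := by nlinarith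
    calc 138 / 119 * (1 + (p - 219 / 100) * (69 / 100))
        ≤ (219 / 100 : ℝ) ^ (19 / 100 : ℝ) * (219 / 100 : ℝ) ^ (p - 219 / 100) := by
          apply mul_le_mul hb e3 e4
          exact (by norm_num : (0 : ℝ) ≤ 138 / 119).trans hb
      _ = (219 / 100 : ℝ) ^ (p - 2) := e2.symm
      _ ≤ p ^ (p - 2) := e1
  have h2 : 2 * p - 3 ≤ (p - 1) * p ^ (p - 2) := by
    have e1 : 2 * p - 3 ≤ (p - 1) * (138 / 119 * (1 + (p - 219 / 100) * (69 / 100))) := by
      nlinarith [mul_nonneg (show (0:ℝ) ≤ p - 219/100 by linarith) (show (0:ℝ) ≤ p - 219/100 by linarith)]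
    exact e1.trans (mul_le_mul_of_nonneg_left h1 (by linarith))
  have h3 : (p - 1) ^ p = (p - 1) ^ (p - 1) * (p - 1) := by
    rw [← Real.rpow_add_one (by linarith)]
    congr 1
    ring
  have h4 := cp_mul (p := p) (by linarith)
  unfold ff BB
  rw [Real.zero_rpow (by linarith), sub_zero, sub_zero, sub_zero, add_zero, Real.one_rpow,
    Real.one_rpow, h3, ← h4]
  have h5 : 0 ≤ cp p * ((p - 1) * p ^ (p - 2) - (2 * p - 3)) :=
    mul_nonneg (cp_pos (by linarith)).le (by linarith)
  nlinarith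

theorem ff_nonneg {p t : ℝ} (hp : 219 / 100 ≤ p) (ht0 : 0 ≤ t) (ht1 : t ≤ 1) : 0 ≤ ff p t := by
  rcases le_or_gt 3 p with h3 | h3
  · exact ff_nonneg3 h3 ht0 ht1
  have hp2 : 2 < p := by linarith
  rcases le_or_gt (ff p 0) (ff p t) with h | h
  · exact (start hp h3.le).trans h
  have ht : 0 < t := by
    rcases ht0.lt_or_eq with h1 | h1
    · exact h1
    · rw [← h1] at h
      exact absurd h (lt_irrefl _)
  have hcont : ContinuousOn (ff p) (Icc 0 1) := fun t ht =>
    (ff_deriv hp2.le (by linarith [ht.1])).continuousAt.continuousWithinAt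
  -- a point with positive gg
  obtain ⟨t1, ⟨h10, h11⟩, h12⟩ := exists_hasDerivAt_eq_slope (ff p) (fun t => -(p * gg p t)) ht
    (hcont.mono (Icc_subset_Icc le_rfl ht1))
    (fun x hx => ff_deriv hp2.le (by linarith [hx.1]))
  have h13 : 0 < gg p t1 := by
    have e1 : (ff p t - ff p 0) / (t - 0) < 0 := div_neg_of_neg_of_pos (by linarith) (by linarith)
    rw [← h12] at e1
    by_contra hcon
    push Not at hcon
    nlinarith
  have hgpos : ∀ t2, t1 < t2 → t2 < 1 → 0 ≤ gg p t2 := by
    intro t2 h20 h21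
    by_contra hneg
    push Not at hneg
    have gder : ∀ a b : ℝ, 0 ≤ a → b ≤ 1 → a < b → ∃ x ∈ Ioo a b,
        (p - 1) * hf p x = (gg p b - gg p a) / (b - a) := by
      intro a b ha hb hab
      exact exists_hasDerivAt_eq_slope (gg p) (fun t => (p - 1) * hf p t) hab
        ((gg_cont hp2).mono (Icc_subset_Icc ha hb))
        (fun x hx => gg_deriv hp2 (by linarith [hx.1]) (by linarith [hx.2]))
    obtain ⟨x1, hx1, e1⟩ := gder 0 t1 le_rfl (by linarith) h10
    obtain ⟨x2, hx2, e2⟩ := gder t1 t2 h10.le h21.le h20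
    obtain ⟨x3, hx3, e3⟩ := gder t2 1 (by linarith) le_rfl h21
    rw [gg_zero hp2, sub_zero] at e1
    have k1 : 0 < hf p x1 := by
      have : 0 < gg p t1 / (t1 - 0) := div_pos h13 (by linarith)
      rw [← e1] at this
      exact (pos_iff_pos_of_mul_pos this).1 (by linarith)
    have k2 : hf p x2 < 0 := by
      have : (gg p t2 - gg p t1) / (t2 - t1) < 0 := div_neg_of_neg_of_pos (by linarith) (by linarith)
      rw [← e2] at this
      by_contra hcon
      push Not at hcon
      nlinarith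
    have k3 : 0 < hf p x3 := by
      have : 0 < (gg p 1 - gg p t2) / (1 - t2) :=
        div_pos (by linarith [gg_one hp2.le]) (by linarith)
      rw [← e3] at this
      exact (pos_iff_pos_of_mul_pos this).1 (by linarith)
    have hconc : ConcaveOn ℝ (Ioo (0 : ℝ) 1) (hf p) := by
      have := hf_concave (s := p - 2) (by linarith) (by linarith)
      rwa [show p - 2 + 2 = p by ring] at this
    have h5 : min (hf p x1) (hf p x3) ≤ hf p x2 := by
      apply hconc.min_le_of_mem_Icc (x := x1) (y := x3)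
      · exact ⟨hx1.1, by linarith [hx1.2]⟩
      · exact ⟨by linarith [hx3.1], hx3.2⟩
      · exact ⟨by linarith [hx1.2, hx2.1], by linarith [hx2.2, hx3.1]⟩
    have h6 := lt_min k1 k3
    linarith
  have hanti : AntitoneOn (ff p) (Icc t 1) := by
    apply antitoneOn_of_deriv_nonpos (convex_Icc _ _)
    · exact hcont.mono (Icc_subset_Icc ht.le le_rfl)
    · rw [interior_Icc]
      exact fun x hx => (ff_deriv hp2.le
        (by linarith [hx.1])).differentiableAt.differentiableWithinAt
    · rw [interior_Icc]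
      intro x hx
      rw [(ff_deriv hp2.le (by linarith [hx.1])).deriv]
      have h6 := hgpos x (by linarith [hx.1]) hx.2
      nlinarith
  have h7 := hanti ⟨le_rfl, ht1⟩ ⟨ht1, le_rfl⟩ ht1
  rw [ff_one hp2.le] at h7
  exact (BB_nonneg hp2.le zero_le_one).trans h7

open Pool.Agent.W488.IW in
/-- **The sharp pointwise inequality** for `p ≥ 2.19`. -/
theorem main219 : S_PTW (219 / 100) := by
  intro p x y hp hx hy
  have hp2 : 2 ≤ p := by linarith
  show cp p * Wp p x y ≤ (p - 1) ^ p * x ^ p - y ^ p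
  rcases hx.lt_or_eq with hx0 | hx0
  · -- scaling
    set t : ℝ := y / x with ht
    have ht0 : 0 ≤ t := div_nonneg hy hx
    have hyt : y = x * t := by
      rw [ht]
      field_simp
    have hk : cp p * ((p - 1 - t) * (1 + t) ^ (p - 1) + (p - 2) * max (1 - t) 0 ^ p) ≤
        (p - 1) ^ p - t ^ p := by
      rcases le_total t 1 with h | h
      · have h1 := ff_nonneg hp ht0 h
        unfold ff BB at h1
        rw [max_eq_left (by linarith)]
        linarith
      · have h1 := BB_nonneg hp2 ht0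
        unfold BB at h1
        rw [max_eq_right (by linarith), Real.zero_rpow (by linarith)]
        linarith
    have hW : Wp p x y = x ^ p * ((p - 1 - t) * (1 + t) ^ (p - 1) + (p - 2) * max (1 - t) 0 ^ p) := by
      unfold Wp
      have e1 : x + y = x * (1 + t) := by rw [hyt]; ring
      have e2 : max (x - y) 0 = x * max (1 - t) 0 := by
        rw [hyt, mul_max_of_nonneg _ _ hx, mul_zero]
        congr 1
        ring
      have e3 : x ^ p = x ^ (p - 1) * x := by
        rw [← Real.rpow_add_one hx0.ne']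
        congr 1
        ring
      rw [e1, e2, Real.mul_rpow hx (by linarith), Real.mul_rpow hx (le_max_right _ _), hyt, e3]
      ring
    have hy2 : y ^ p = x ^ p * t ^ p := by
      rw [hyt, Real.mul_rpow hx ht0]
    rw [hW, hy2]
    have h2 := mul_le_mul_of_nonneg_left hk (Real.rpow_nonneg hx p)
    nlinarith
  · rw [← hx0]
    unfold Wp
    rw [Real.zero_rpow (by linarith), zero_add, max_eq_right (by linarith),
      Real.zero_rpow (by linarith)]
    have e1 : ((p - 1) * 0 - y) * y ^ (p - 1) = -y ^ p := by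
      rcases hy.lt_or_eq with h | h
      · have e3 : y ^ p = y ^ (p - 1) * y := by
          rw [← Real.rpow_add_one h.ne']
          congr 1
          ring
        rw [e3]
        ring
      · rw [← h, Real.zero_rpow (by linarith), Real.zero_rpow (by linarith)]
        ring
    rw [e1]
    have h1 := one_le_cp hp2
    have h2 : 0 ≤ y ^ p := Real.rpow_nonneg hy _
    nlinarith

open Pool.Agent.W488.IW in
theorem main : S_PTW (11 / 5) := fun p x y hp hx hy => main219 p x y (by linarith) hx hy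

open Pool.Agent.W488.IW in
theorem main3 : S_PTW 3 := fun p x y hp hx hy => main219 p x y (by linarith) hx hy

end Pool.Agent.W459.IW.Ptw
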